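import Mathlib
import Pool.Agent.T9h65.Dim.Shift

/-! Finite projective resolutions from vanishing of `Tor`, base change, and passage to
`ProjectiveResolution`. -/

set_option autoImplicit false

open TensorProduct LinearMap CategoryTheory CategoryTheory.Limits

namespace Pool.Agent.T9h65.Grade

open Pool.Agent.T9h65.Dim

/-- `Tor_j(A, N) = 0` for all `j > m`, seen on every flat resolution of `N`. -/
def TorVanish {R : Type} [CommRing R] (m : ℕ) (A N : Type) [AddCommGroup A] [Module R A]
    [AddCommGroup N] [Module R N] : Prop :=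
  ∀ (F : ℕ → Type) [∀ i, AddCommGroup (F i)] [∀ i, Module R (F i)] [∀ i, Module.Flat R (F i)]
    (D : ∀ i, F (i + 1) →ₗ[R] F i) (_ : ∀ i, Function.Exact (D (i + 1)) (D i))
    (ε : F 0 →ₗ[R] N) (_ : Function.Exact (D 0) ε) (_ : Function.Surjective ε) (i : ℕ),
    m ≤ i → TV D A i

/-- shifted family -/
def spl (F : Type) (F' : ℕ → Type) : ℕ → Type
  | 0 => F
  | i + 1 => F' i

section
variable {R : Type} [CommRing R] (F : Type) (F' : ℕ → Type)

instance splG [AddCommGroup F] [∀ i, AddCommGroup (F' i)] : ∀ i, AddCommGroup (spl F F' i)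
  | 0 => inferInstanceAs (AddCommGroup F)
  | i + 1 => inferInstanceAs (AddCommGroup (F' i))

instance splM [AddCommGroup F] [∀ i, AddCommGroup (F' i)] [Module R F] [∀ i, Module R (F' i)] :
    ∀ i, Module R (spl F F' i)
  | 0 => inferInstanceAs (Module R F)
  | i + 1 => inferInstanceAs (Module R (F' i))

instance splF [AddCommGroup F] [∀ i, AddCommGroup (F' i)] [Module R F] [∀ i, Module R (F' i)]
    [Module.Flat R F] [∀ i, Module.Flat R (F' i)] : ∀ i, Module.Flat R (spl F F' i)
  | 0 => inferInstanceAs (Module.Flat R F)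
  | i + 1 => inferInstanceAs (Module.Flat R (F' i))

variable {F F'} [AddCommGroup F] [∀ i, AddCommGroup (F' i)] [Module R F] [∀ i, Module R (F' i)]
  {K N : Type} [AddCommGroup K] [Module R K] [AddCommGroup N] [Module R N]

/-- spliced differentials -/
def splD (D : ∀ i, F' (i + 1) →ₗ[R] F' i) (δ : F' 0 →ₗ[R] F) :
    ∀ i, spl F F' (i + 1) →ₗ[R] spl F F' i
  | 0 => δ
  | i + 1 => D i

end

section
variable {R : Type} [CommRing R] {A K F N : Type} [AddCommGroup A] [Module R A]
  [AddCommGroup K] [Module R K] [AddCommGroup F] [Module R F] [AddCommGroup N] [Module R N]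

theorem splD_exact {F' : ℕ → Type} [∀ i, AddCommGroup (F' i)] [∀ i, Module R (F' i)]
    (D : ∀ i, F' (i + 1) →ₗ[R] F' i) (hD : ∀ i, Function.Exact (D (i + 1)) (D i))
    (ε : F' 0 →ₗ[R] K) (h0 : Function.Exact (D 0) ε)
    (ι : K →ₗ[R] F) (hι : Function.Injective ι) :
    ∀ i, Function.Exact (splD (F := F) D (ι.comp ε) (i + 1)) (splD (F := F) D (ι.comp ε) i)
  | 0 => fun (y : F' 0) => by
    show ι (ε y) = 0 ↔ y ∈ Set.range (D 0)
    constructor
    · intro h
      exact (h0 y).1 (hι (by rw [h, map_zero]))
    · intro h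
      rw [(h0 y).2 h, map_zero]
  | i + 1 => hD i

theorem splD_exact0 {F' : ℕ → Type} [∀ i, AddCommGroup (F' i)] [∀ i, Module R (F' i)]
    (D : ∀ i, F' (i + 1) →ₗ[R] F' i)
    (ε : F' 0 →ₗ[R] K) (hε : Function.Surjective ε)
    (ι : K →ₗ[R] F) (π : F →ₗ[R] N) (hex : Function.Exact ι π) :
    Function.Exact (splD (F := F) D (ι.comp ε) 0) π := by
  intro y
  rw [hex y]
  constructor
  · rintro ⟨k, rfl⟩
    obtain ⟨x, rfl⟩ := hε k
    exact ⟨x, rfl⟩
  · rintro ⟨x, rfl⟩
    exact ⟨ε x, rfl⟩

theorem torVanish_syz [Module.Flat R F] (ι : K →ₗ[R] F) (π : F →ₗ[R] N)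
    (hι : Function.Injective ι) (hex : Function.Exact ι π) (hπ : Function.Surjective π)
    {m n : ℕ} (hmn : m ≤ n + 1) (h : TorVanish (R := R) m A N) : TorVanish (R := R) n A K := by
  intro F' _ _ _ D hD ε h0 hε i hi
  exact h (spl F F') (splD D (ι.comp ε)) (splD_exact D hD ε h0 ι hι) π
    (splD_exact0 D ε hε ι π hex) hπ (i + 1) (by omega)

/-- every module has a flat resolution -/
theorem exists_res (K : Type) [AddCommGroup K] [Module R K] {Q : Prop}
    (H : ∀ (F : ℕ → Type) [∀ i, AddCommGroup (F i)] [∀ i, Module R (F i)]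
      [∀ i, Module.Flat R (F i)] (D : ∀ i, F (i + 1) →ₗ[R] F i)
      (_ : ∀ i, Function.Exact (D (i + 1)) (D i)) (ε : F 0 →ₗ[R] K)
      (_ : Function.Exact (D 0) ε) (_ : Function.Surjective ε), Q) : Q := by
  let P := ProjectiveResolution.of (ModuleCat.of R K)
  have : ∀ i, Module.Flat R (P.complex.X i) := by
    intro i
    have : Module.Projective R (P.complex.X i) :=
      (IsProjective.iff_projective _).2 (P.projective i)
    infer_instance
  refine H (fun i => P.complex.X i) (fun i => (P.complex.d (i + 1) i).hom) ?_ (P.π.f 0).hom ?_ ?_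
  · intro i
    exact (ShortComplex.ShortExact.moduleCat_exact_iff_function_exact _).1 (P.exact_succ i)
  · exact (ShortComplex.ShortExact.moduleCat_exact_iff_function_exact _).1 P.exact₀
  · exact (ModuleCat.epi_iff_surjective _).1 inferInstance

theorem inj_of_torVanish [Module.Flat R F] (ι : K →ₗ[R] F) (π : F →ₗ[R] N)
    (hι : Function.Injective ι) (hex : Function.Exact ι π) (hπ : Function.Surjective π)
    (h : TorVanish (R := R) 0 A N) : Function.Injective (lTensor A ι) := by
  refine exists_res (R := R) K ?_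
  intro F' _ _ _ D hD ε h0 hε
  have h1 : TV (splD (F := F) D (ι.comp ε)) A 0 :=
    h (spl F F') (splD D (ι.comp ε)) (splD_exact D hD ε h0 ι hι) π
      (splD_exact0 D ε hε ι π hex) hπ 0 le_rfl
  have h2 : ∀ y : A ⊗[R] F' 0, lTensor A (ι.comp ε) y = 0 → ∃ t, lTensor A (D 0) t = y :=
    fun y hy => (h1 y).1 hy
  rw [injective_iff_map_eq_zero]
  intro x hx
  obtain ⟨y, rfl⟩ := lTensor_surjective A hε x
  rw [← LinearMap.comp_apply, ← lTensor_comp] at hx
  obtain ⟨t, rfl⟩ := h2 y hx
  rw [← LinearMap.comp_apply, ← lTensor_comp, h0.linearMap_comp_eq_zero, lTensor_zero,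
    LinearMap.zero_apply]

end

/-- `M` has a projective resolution of length at most `n`. -/
def FR (R : Type) [CommRing R] : (n : ℕ) → (M : Type) → [AddCommGroup M] → [Module R M] → Prop
  | 0, M, _, _ => Module.Projective R M
  | n + 1, M, _, _ => ∃ (F K : ModuleCat.{0} R) (ι : K →ₗ[R] F) (π : F →ₗ[R] M),
      Module.Projective R F ∧ Function.Injective ι ∧ Function.Exact ι π ∧
        Function.Surjective π ∧ FR R n K

theorem FR_of_tor {R : Type} [CommRing R] [IsLocalRing R] [IsNoetherianRing R] :
    ∀ (m : ℕ) (N : Type) [AddCommGroup N] [Module R N] [Module.Finite R N],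
      TorVanish (R := R) m (IsLocalRing.ResidueField R) N → FR R m N := by
  intro m
  induction m with
  | zero =>
    intro N _ _ _ h
    obtain ⟨n, π, hπ⟩ := Module.Finite.exists_fin' R N
    have hinj := inj_of_torVanish (ker π).subtype π (Submodule.subtype_injective _)
      (LinearMap.exact_subtype_ker_map π) hπ h
    have : Module.Free R N := Module.free_of_lTensor_residueField_injective (ker π).subtype π hπ
      (LinearMap.exact_subtype_ker_map π) hinj
    show Module.Projective R N
    infer_instance
  | succ m ih =>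
    intro N _ _ _ h
    obtain ⟨n, π, hπ⟩ := Module.Finite.exists_fin' R N
    refine ⟨ModuleCat.of R (Fin n → R), ModuleCat.of R (ker π), (ker π).subtype, π, ?_,
      Submodule.subtype_injective _, LinearMap.exact_subtype_ker_map π, hπ, ?_⟩
    · show Module.Projective R (Fin n → R)
      infer_instance
    · exact ih (ker π) (torVanish_syz (ker π).subtype π (Submodule.subtype_injective _)
        (LinearMap.exact_subtype_ker_map π) hπ le_rfl h)

theorem FR_baseChange {B A : Type} [CommRing B] [CommRing A] [Algebra B A] :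
    ∀ (n : ℕ) (N : Type) [AddCommGroup N] [Module B N], FR B n N → TorVanish (R := B) 0 A N →
      FR A n (A ⊗[B] N) := by
  intro n
  induction n with
  | zero =>
    intro N _ _ h _
    have : Module.Projective B N := h
    show Module.Projective A (A ⊗[B] N)
    infer_instance
  | succ n ih =>
    rintro N _ _ ⟨F, K, ι, π, hF, hι, hex, hπ, hK⟩ hT
    refine ⟨ModuleCat.of A (A ⊗[B] F), ModuleCat.of A (A ⊗[B] K), ι.baseChange A,
      π.baseChange A, ?_, ?_, ?_, ?_, ?_⟩
    · show Module.Projective A (A ⊗[B] F)
      infer_instance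
    · exact inj_of_torVanish ι π hι hex hπ hT
    · exact lTensor_exact A hex hπ
    · exact lTensor_surjective A hπ
    · exact ih K hK (torVanish_syz ι π hι hex hπ (by omega) hT)

set_option backward.defeqAttrib.useBackward true in
set_option backward.isDefEq.respectTransparency false in
/-- a resolution out of an exact chain complex -/
theorem resolution_of {R : Type} [CommRing R] {Z : ModuleCat.{0} R} (C : ChainComplex (ModuleCat.{0} R) ℕ)
    (hC : ∀ n, Projective (C.X n)) (f : C.X 0 ⟶ Z) (w : C.d 1 0 ≫ f = 0)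
    (h0 : (ShortComplex.mk _ _ w).Exact) [Epi f] (hex : ∀ n, C.ExactAt (n + 1)) :
    ∃ P : ProjectiveResolution Z, P.complex = C := by
  refine ⟨{ complex := C, projective := hC, π := (ChainComplex.toSingle₀Equiv _ _).symm ⟨f, w⟩,
            quasiIso := ⟨fun n => ?_⟩ }, rfl⟩
  cases n with
  | zero =>
    rw [ChainComplex.quasiIsoAt₀_iff, ShortComplex.quasiIso_iff_of_zeros']
    · refine (ShortComplex.exact_and_epi_g_iff_of_iso ?_).2 ⟨h0, by dsimp; infer_instance⟩
      exact ShortComplex.isoMk (Iso.refl _) (Iso.refl _) (Iso.refl _)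
          (by simp) (by simp)
    all_goals first | rfl | exact C.shape 0 0 (by simp)
  | succ n =>
    rw [quasiIsoAt_iff_exactAt']
    · exact hex n
    · apply ChainComplex.exactAt_succ_single_obj

set_option backward.defeqAttrib.useBackward true in
set_option backward.isDefEq.respectTransparency false in
theorem FR_resolution {R : Type} [CommRing R] :
    ∀ (n : ℕ) (M : Type) [AddCommGroup M] [Module R M], FR R n M →
      ∃ P : ProjectiveResolution (ModuleCat.of R M), ∃ m : ℕ, ∀ i : ℕ, m ≤ i →
        IsZero (P.complex.X i) := by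
  intro n
  induction n with
  | zero =>
    intro M _ _ h
    have : Module.Projective R M := h
    have : Projective (ModuleCat.of R M) := (IsProjective.iff_projective _).1 this
    refine ⟨ProjectiveResolution.self _, 1, fun i hi => ?_⟩
    exact HomologicalComplex.isZero_single_obj_X _ _ _ _ (by omega)
  | succ n ih =>
    rintro M _ _ ⟨F, K, ι, π, hF, hι, hex, hπ, hK⟩
    obtain ⟨P, m, hm⟩ := ih K hK
    have wP : P.complex.d 1 0 ≫ (P.π.f 0 ≫ ModuleCat.ofHom ι) = 0 := by
      rw [← Category.assoc, P.complex_d_comp_π_f_zero, Limits.zero_comp]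
    let C : ChainComplex (ModuleCat.{0} R) ℕ :=
      ChainComplex.augment P.complex (P.π.f 0 ≫ ModuleCat.ofHom ι) wP
    have hιπ : ∀ x, π (ι x) = 0 := fun x => (hex (ι x)).2 ⟨x, rfl⟩
    have w : C.d 1 0 ≫ ModuleCat.ofHom π = 0 := by
      ext x
      exact hιπ _
    have hepi : Epi (ModuleCat.ofHom π) := (ModuleCat.epi_iff_surjective _).2 hπ
    have hsurj : Function.Surjective (P.π.f 0) :=
      (ModuleCat.epi_iff_surjective _).1 inferInstance
    obtain ⟨Q, hQ⟩ := resolution_of (Z := ModuleCat.of R M) C (by
      intro k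
      cases k with
      | zero => exact (IsProjective.iff_projective _).1 hF
      | succ k => exact P.projective k) (ModuleCat.ofHom π) w (by
      rw [ShortComplex.ShortExact.moduleCat_exact_iff_function_exact]
      intro y
      constructor
      · intro hy
        obtain ⟨k, hk⟩ := (hex y).1 hy
        obtain ⟨x, rfl⟩ := hsurj k
        exact ⟨x, hk⟩
      · rintro ⟨x, rfl⟩
        exact hιπ _) (by
      intro k
      rw [HomologicalComplex.exactAt_iff' _ (k + 2) (k + 1) k
        (by simp only [ChainComplex.prev]; rfl) (by simp)]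
      rw [ShortComplex.ShortExact.moduleCat_exact_iff_function_exact]
      cases k with
      | zero =>
        intro y
        constructor
        · intro hy
          have h1 : (P.π.f 0) y = 0 := hι (by
            rw [map_zero]
            exact hy)
          have h2 := (ShortComplex.ShortExact.moduleCat_exact_iff_function_exact _).1 P.exact₀
          exact (h2 y).1 h1
        · rintro ⟨x, rfl⟩
          have h2 := (ShortComplex.ShortExact.moduleCat_exact_iff_function_exact _).1 P.exact₀
          have h3 := (h2 _).2 ⟨x, rfl⟩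
          show ι _ = 0
          exact (congrArg ι h3).trans (map_zero ι)
      | succ k =>
        exact (ShortComplex.ShortExact.moduleCat_exact_iff_function_exact _).1 (P.exact_succ k))
    refine ⟨Q, m + 1, fun i hi => ?_⟩
    rw [hQ]
    cases i with
    | zero => omega
    | succ i => exact hm i (by omega)

end Pool.Agent.T9h65.Grade
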