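import Mathlib
import Pool.Agent.T9h65.Grade.FRes

/-! The abstract final step: a local ring `B` and a module `N` with suitable properties give a
counterexample over `A = B/(zw)`. -/

set_option autoImplicit false

open TensorProduct IsLocalRing

namespace Pool.Agent.T9h65.Grade

section abs

variable {B : Type} [CommRing B] {N : Type} [AddCommGroup N] [Module B N]

/-- the quotient ring -/
abbrev QA (t : B) : Type := B ⧸ Ideal.span {t}

theorem ann_mem {t : B} {q : Ideal B} (hqN : ∀ r : B, (∀ n : N, ∃ n' : N, r • n = t • n') → r ∈ q)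
    (r : B) (hr : Ideal.Quotient.mk (Ideal.span {t}) r ∈ Module.annihilator (QA t) (QA t ⊗[B] N)) :
    r ∈ q := by
  apply hqN
  intro n
  rw [Module.mem_annihilator] at hr
  have h1 : (1 : QA t) ⊗ₜ[B] (r • n) = 0 := by
    have := hr (1 ⊗ₜ[B] n)
    rw [TensorProduct.smul_tmul', smul_eq_mul, mul_one] at this
    rw [← this, ← TensorProduct.smul_tmul]
    congr 1
    exact (Algebra.algebraMap_eq_smul_one (A := QA t) r).symm
  have h2 := congrArg (TensorProduct.quotTensorEquivQuotSMul N (Ideal.span {t})) h1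
  rw [map_zero] at h2
  have h3 : (TensorProduct.quotTensorEquivQuotSMul N (Ideal.span {t}))
      ((Ideal.Quotient.mk (Ideal.span {t}) 1) ⊗ₜ[B] (r • n)) = Submodule.Quotient.mk (1 • (r • n)) :=
    by simp
  rw [map_one] at h3
  rw [h3, one_smul, Submodule.Quotient.mk_eq_zero, Submodule.ideal_span_singleton_smul,
    Submodule.mem_smul_pointwise_iff_exists] at h2
  obtain ⟨n', -, hn'⟩ := h2
  exact ⟨n', hn'.symm⟩

theorem cube_mem_ann {t : B} (a : B) (ha : ∀ n : N, a ^ 3 • n = 0) :
    (Ideal.Quotient.mk (Ideal.span {t}) a) ^ 3 ∈ Module.annihilator (QA t) (QA t ⊗[B] N) := by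
  rw [Module.mem_annihilator]
  intro x
  have key : ∀ x : QA t ⊗[B] N, (a ^ 3) • x = 0 := by
    intro x
    induction x with
    | zero => rw [smul_zero]
    | tmul x n => rw [← TensorProduct.tmul_smul, ha, TensorProduct.tmul_zero]
    | add x y hx hy => rw [smul_add, hx, hy, add_zero]
  have h2 := key x
  rw [← algebraMap_smul (QA t), Ideal.Quotient.algebraMap_eq, map_pow] at h2
  exact h2

/-- the quotient by the annihilator has dimension at most one -/
theorem dimC_le [IsLocalRing B] [IsNoetherianRing B] (a b c d z w : B)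
    (hmax : maximalIdeal B ≤ Ideal.span {a, b, c, d, z, w})
    (hz : z ∈ maximalIdeal B) (hw : w ∈ maximalIdeal B)
    (ha : ∀ n : N, a ^ 3 • n = 0) (hb : ∀ n : N, b ^ 3 • n = 0) (hc : ∀ n : N, c ^ 3 • n = 0)
    (hd : ∀ n : N, d ^ 3 • n = 0) [Nontrivial (QA (z * w) ⊗[B] N)] :
    ringKrullDim (QA (z * w) ⧸ Module.annihilator (QA (z * w)) (QA (z * w) ⊗[B] N)) ≤ 1 := by
  set I := Module.annihilator (QA (z * w)) (QA (z * w) ⊗[B] N) with hI
  have hI1 : I ≠ ⊤ := by
    intro h
    rw [Module.annihilator_eq_top_iff] at h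
    exact not_subsingleton _ h
  let f : B →+* (QA (z * w) ⧸ I) := (Ideal.Quotient.mk I).comp (Ideal.Quotient.mk _)
  have hf : Function.Surjective f :=
    Ideal.Quotient.mk_surjective.comp Ideal.Quotient.mk_surjective
  have : Nontrivial (QA (z * w) ⧸ I) := Ideal.Quotient.nontrivial_iff.2 hI1
  have : IsLocalRing (QA (z * w) ⧸ I) := IsLocalRing.of_surjective' f hf
  have hzw : f z * f w = 0 := by
    rw [← map_mul]
    show (Ideal.Quotient.mk I) (Ideal.Quotient.mk _ (z * w)) = 0
    rw [Ideal.Quotient.eq_zero_iff_mem.2 (Ideal.mem_span_singleton_self (z * w)), map_zero]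
  have hcube : ∀ a : B, (∀ n : N, a ^ 3 • n = 0) → f a ^ 3 = 0 := by
    intro a ha
    show (Ideal.Quotient.mk I (Ideal.Quotient.mk _ a)) ^ 3 = 0
    rw [← map_pow]
    exact Ideal.Quotient.eq_zero_iff_mem.2 (cube_mem_ann a ha)
  have hloc : ∀ x : B, x ∈ maximalIdeal B → f x ∈ maximalIdeal (QA (z * w) ⧸ I) := by
    intro x hx
    rw [mem_maximalIdeal, mem_nonunits_iff]
    intro hu
    obtain ⟨v, hv⟩ := hu.exists_right_inv
    obtain ⟨y, rfl⟩ := hf v
    have h1 : f (x * y - 1) = 0 := by rw [map_sub, map_mul, hv, map_one, sub_self]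
    have h2 : IsUnit (1 - x * y) := by
      by_contra h
      have h3 : (1 - x * y) ∈ maximalIdeal B := (mem_maximalIdeal _).2 h
      have h4 : (1 : B) ∈ maximalIdeal B := by
        have := add_mem h3 (Ideal.mul_mem_right y _ hx)
        rwa [sub_add_cancel] at this
      exact (Ideal.ne_top_iff_one _).1 (maximalIdeal.isMaximal B).ne_top h4
    have h3 := h2.map f
    rw [← neg_sub, map_neg, h1, neg_zero] at h3
    exact not_isUnit_zero h3
  have hmem : maximalIdeal (QA (z * w) ⧸ I) ∈ (Ideal.span {f z + f w}).minimalPrimes := by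
    refine ⟨⟨inferInstance, ?_⟩, ?_⟩
    · rw [Ideal.span_le, Set.singleton_subset_iff]
      exact add_mem (hloc z hz) (hloc w hw)
    · rintro P ⟨hP, hs⟩ -
      have h1 : f z + f w ∈ P := hs (Ideal.mem_span_singleton_self _)
      have h2 : f z ∈ P ∧ f w ∈ P := by
        have h3 : f z * f w ∈ P := by rw [hzw]; exact P.zero_mem
        rcases hP.mem_or_mem h3 with h | h
        · exact ⟨h, (P.add_mem_iff_right h).1 h1⟩
        · exact ⟨(P.add_mem_iff_left h).1 h1, h⟩
      have h4 : ∀ a : B, (∀ n : N, a ^ 3 • n = 0) → f a ∈ P := by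
        intro a ha
        apply hP.mem_of_pow_mem 3
        rw [hcube a ha]
        exact P.zero_mem
      have h5 : maximalIdeal B ≤ P.comap f := by
        refine hmax.trans ?_
        rw [Ideal.span_le]
        rintro x (rfl | rfl | rfl | rfl | rfl | rfl)
        · exact h4 _ ha
        · exact h4 _ hb
        · exact h4 _ hc
        · exact h4 _ hd
        · exact h2.1
        · exact h2.2
      intro x hx
      obtain ⟨y, rfl⟩ := hf x
      apply h5
      rw [mem_maximalIdeal, mem_nonunits_iff]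
      intro hu
      exact (mem_nonunits_iff.1 ((mem_maximalIdeal _).1 hx)) (hu.map f)
  rw [← IsLocalRing.maximalIdeal_height_eq_ringKrullDim]
  have hh := Ideal.height_le_card_of_mem_minimalPrimes_span (Set.toFinite _) hmem
  rw [Set.ncard_singleton] at hh
  exact WithBot.coe_le_coe.2 hh

/-- weakly regular sequences in the annihilator have length at most two -/
theorem no_three [IsLocalRing B] [IsNoetherianRing B] (a b c d z w : B)
    (hza : z * a = 0) (hzb : z * b = 0)
    (q : Ideal B) [hqp : q.IsPrime] (hq : q ≤ Ideal.span {a, b, c, d, w})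
    (hcq : c ∈ q) (hdq : d ∈ q) (hwq : w ∈ q) (hzq : z ∉ q)
    (hqN : ∀ r : B, (∀ n : N, ∃ n' : N, r • n = (z * w) • n') → r ∈ q)
    (rs : List (QA (z * w))) (hlen : rs.length = 3)
    (hrs : ∀ r ∈ rs, r ∈ Module.annihilator (QA (z * w)) (QA (z * w) ⊗[B] N))
    (hreg : RingTheory.Sequence.IsWeaklyRegular (QA (z * w)) rs) : False := by
  have hspan : Ideal.span {z * w} ≤ q := by
    rw [Ideal.span_le, Set.singleton_subset_iff]
    exact q.mul_mem_left _ hwq
  let mk := Ideal.Quotient.mk (Ideal.span {z * w})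
  have hmks : Function.Surjective mk := Ideal.Quotient.mk_surjective
  let qA : Ideal (QA (z * w)) := q.map mk
  have hqA : qA.IsPrime := Ideal.map_isPrime_of_surjective hmks (by
    rw [Ideal.mk_ker]; exact hspan)
  have hmem : ∀ r : B, mk r ∈ qA ↔ r ∈ q := by
    intro r
    constructor
    · intro h
      obtain ⟨y, hy, hyr⟩ := (Ideal.mem_map_iff_of_surjective mk hmks).1 h
      have : r - y ∈ Ideal.span {z * w} := Ideal.Quotient.eq.1 hyr.symm
      have := q.add_mem (hspan this) hy
      rwa [sub_add_cancel] at this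
    · exact fun h => Ideal.mem_map_of_mem mk h
  let S := Localization.AtPrime qA
  let g : B →+* S := (algebraMap (QA (z * w)) S).comp mk
  have hreg' := hreg.isRegular_of_isLocalization_of_mem S qA (fun r hr => by
    obtain ⟨r', rfl⟩ := hmks r
    exact (hmem r').2 (ann_mem hqN r' (hrs _ hr)))
  have hzu : IsUnit (g z) :=
    IsLocalization.map_units S (⟨mk z, fun h => hzq ((hmem z).1 h)⟩ : qA.primeCompl)
  have kill : ∀ x : B, z * x ∈ Ideal.span {z * w} → g x = 0 := by
    intro x hx
    have h1 : g (z * x) = 0 := by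
      show algebraMap (QA (z * w)) S (mk (z * x)) = 0
      rw [Ideal.Quotient.eq_zero_iff_mem.2 hx, map_zero]
    rw [map_mul] at h1
    exact (hzu.mul_right_eq_zero).1 h1
  have ka : g a = 0 := kill a (by rw [hza]; exact zero_mem _)
  have kb : g b = 0 := kill b (by rw [hzb]; exact zero_mem _)
  have kw : g w = 0 := kill w (Ideal.mem_span_singleton_self _)
  have hmax : maximalIdeal S ≤ Ideal.span {g c, g d} := by
    rw [← Localization.AtPrime.map_eq_maximalIdeal, Ideal.map_le_iff_le_comap,
      Ideal.map_le_iff_le_comap]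
    refine hq.trans ?_
    rw [Ideal.span_le]
    rintro x hx
    simp only [Set.mem_insert_iff, Set.mem_singleton_iff] at hx
    show g x ∈ (Ideal.span {g c, g d} : Ideal S)
    rcases hx with h | h | h | h | h
    · rw [h, ka]; exact zero_mem _
    · rw [h, kb]; exact zero_mem _
    · rw [h]; exact Ideal.subset_span (Or.inl rfl)
    · rw [h]; exact Ideal.subset_span (Or.inr rfl)
    · rw [h, kw]; exact zero_mem _
  have hgm : ∀ x ∈ q, g x ∈ maximalIdeal S := by
    intro x hx
    rw [← Localization.AtPrime.map_eq_maximalIdeal]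
    exact Ideal.mem_map_of_mem _ ((hmem x).2 hx)
  have hmin : maximalIdeal S ∈ (Ideal.span {g c, g d}).minimalPrimes := by
    refine ⟨⟨inferInstance, ?_⟩, ?_⟩
    · rw [Ideal.span_le]
      rintro x (rfl | rfl)
      · exact hgm _ hcq
      · exact hgm _ hdq
    · rintro P ⟨_, hs⟩ -
      exact hmax.trans hs
  have hh := Ideal.height_le_card_of_mem_minimalPrimes_span (Set.toFinite _) hmin
  have h3 : ({g c, g d} : Set S).ncard ≤ 2 := by
    refine (Set.ncard_insert_le _ _).trans ?_
    rw [Set.ncard_singleton]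
  have hdim : ringKrullDim S ≤ 2 := by
    rw [← IsLocalRing.maximalIdeal_height_eq_ringKrullDim]
    exact WithBot.coe_le_coe.2 (hh.trans (by exact_mod_cast h3))
  have hsum := ringKrullDim_add_length_eq_ringKrullDim_of_isRegular _ hreg'
  rw [List.length_map, hlen] at hsum
  have hnt : Nontrivial (S ⧸ Ideal.ofList (rs.map (algebraMap (QA (z * w)) S))) := by
    rw [Ideal.Quotient.nontrivial_iff]
    intro h
    apply hreg'.2
    rw [h]
    simp
  have h0 : 0 ≤ ringKrullDim (S ⧸ Ideal.ofList (rs.map (algebraMap (QA (z * w)) S))) :=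
    ringKrullDim_nonneg_of_nontrivial
  have h4 : (0 : WithBot ℕ∞) + (3 : ℕ) ≤ 2 := by
    calc (0 : WithBot ℕ∞) + (3 : ℕ) ≤ _ := add_le_add_left h0 _
      _ = ringKrullDim S := hsum
      _ ≤ 2 := hdim
  exact absurd h4 (by decide)

/-- the abstract counterexample -/
theorem contra [IsLocalRing B] [IsNoetherianRing B] [Module.Finite B N] (a b c d z w : B)
    (hmax : maximalIdeal B ≤ Ideal.span {a, b, c, d, z, w})
    (hz : z ∈ maximalIdeal B) (hw : w ∈ maximalIdeal B)
    (hza : z * a = 0) (hzb : z * b = 0)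
    (ha : ∀ n : N, a ^ 3 • n = 0) (hb : ∀ n : N, b ^ 3 • n = 0) (hc : ∀ n : N, c ^ 3 • n = 0)
    (hd : ∀ n : N, d ^ 3 • n = 0)
    (q : Ideal B) [hqp : q.IsPrime] (hq : q ≤ Ideal.span {a, b, c, d, w})
    (hcq : c ∈ q) (hdq : d ∈ q) (hwq : w ∈ q) (hzq : z ∉ q)
    (hqN : ∀ r : B, (∀ n : N, ∃ n' : N, r • n = (z * w) • n') → r ∈ q)
    (hdim : 4 ≤ ringKrullDim (QA (z * w)))
    (hFR : FR B 4 N) (hT : TorVanish (R := B) 0 (QA (z * w)) N)
    (H : ∀ (A : Type) [CommRing A] [IsLocalRing A] [IsNoetherianRing A]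
      (M : Type) [AddCommGroup M] [Module A M] [Module.Finite A M] [Nontrivial M],
      (∃ P : CategoryTheory.ProjectiveResolution (ModuleCat.of A M), ∃ n : ℕ,
          ∀ i : ℕ, n ≤ i → CategoryTheory.Limits.IsZero (P.complex.X i)) →
      ∀ g : ℕ,
        (∃ rs : List A, rs.length = g ∧ (∀ r ∈ rs, r ∈ Module.annihilator A M) ∧
            RingTheory.Sequence.IsWeaklyRegular A rs) →
        (¬ ∃ rs : List A, rs.length = g + 1 ∧ (∀ r ∈ rs, r ∈ Module.annihilator A M) ∧
            RingTheory.Sequence.IsWeaklyRegular A rs) →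
        (g : WithBot ℕ∞) + ringKrullDim (A ⧸ Module.annihilator A M) = ringKrullDim A) :
    False := by
  have hntA : Nontrivial (QA (z * w)) := by
    rw [Ideal.Quotient.nontrivial_iff]
    intro h
    have h1 : Ideal.span {z * w} ≤ maximalIdeal B := by
      rw [Ideal.span_le, Set.singleton_subset_iff]
      exact Ideal.mul_mem_right _ _ hz
    rw [h] at h1
    exact (maximalIdeal.isMaximal B).ne_top (top_le_iff.1 h1)
  have hlocA : IsLocalRing (QA (z * w)) :=
    IsLocalRing.of_surjective' (Ideal.Quotient.mk (Ideal.span {z * w})) Ideal.Quotient.mk_surjective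
  have hntM : Nontrivial (QA (z * w) ⊗[B] N) := by
    by_contra h
    rw [not_nontrivial_iff_subsingleton] at h
    have h1 : (Ideal.Quotient.mk (Ideal.span {z * w}) 1) ∈
        Module.annihilator (QA (z * w)) (QA (z * w) ⊗[B] N) := by
      rw [Module.mem_annihilator]
      intro x
      exact Subsingleton.elim _ _
    exact hqp.ne_top ((Ideal.eq_top_iff_one _).2 (ann_mem hqN 1 h1))
  have hC := dimC_le (N := N) a b c d z w hmax hz hw ha hb hc hd
  have hres := FR_resolution 4 (QA (z * w) ⊗[B] N) (FR_baseChange 4 N hFR hT)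
  have hH := H (QA (z * w)) (QA (z * w) ⊗[B] N) hres
  have step : ∀ g : ℕ, g ≤ 2 → (∃ rs : List (QA (z * w)), rs.length = g ∧
      (∀ r ∈ rs, r ∈ Module.annihilator (QA (z * w)) (QA (z * w) ⊗[B] N)) ∧
      RingTheory.Sequence.IsWeaklyRegular (QA (z * w)) rs) →
      (∃ rs : List (QA (z * w)), rs.length = g + 1 ∧
      (∀ r ∈ rs, r ∈ Module.annihilator (QA (z * w)) (QA (z * w) ⊗[B] N)) ∧
      RingTheory.Sequence.IsWeaklyRegular (QA (z * w)) rs) := by
    intro g hg h1
    by_contra h2
    have h3 := hH g h1 h2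
    rw [← h3] at hdim
    have h4 : (g : WithBot ℕ∞) + ringKrullDim (QA (z * w) ⧸
        Module.annihilator (QA (z * w)) (QA (z * w) ⊗[B] N)) ≤ (2 : ℕ) + 1 :=
      add_le_add (by exact_mod_cast hg) hC
    have h5 := hdim.trans h4
    exact absurd h5 (by decide)
  have h0 : (∃ rs : List (QA (z * w)), rs.length = 0 ∧
      (∀ r ∈ rs, r ∈ Module.annihilator (QA (z * w)) (QA (z * w) ⊗[B] N)) ∧
      RingTheory.Sequence.IsWeaklyRegular (QA (z * w)) rs) :=
    ⟨[], rfl, by simp, RingTheory.Sequence.IsWeaklyRegular.nil _ _⟩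
  obtain ⟨rs, h1, h2, h3⟩ := step 2 le_rfl (step 1 (by norm_num) (step 0 (by norm_num) h0))
  exact no_three a b c d z w hza hzb q hq hcq hdq hwq hzq hqN rs h1 h2 h3

end abs

end Pool.Agent.T9h65.Grade
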