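import Mathlib
import Pool.Agent.T9h65.Dim.Local
import Pool.Agent.T9h65.Grade.FRes

/-! Adjoining a variable `w`: `R₀[w]` and `N₀[w]` satisfy the exactness conditions. -/

set_option autoImplicit false

open Pool.Agent.T9h65.Dim

namespace Pool.Agent.T9h65.Grade

section fs

variable {R : Type} [CommRing R] {X Y : Type} [AddCommGroup X] [Module R X] [AddCommGroup Y]
  [Module R Y]

theorem good_equiv (e : X ≃ₗ[R] Y) {a b c d z : R} (h : Good a b c d z X) :
    Good a b c d z Y := by
  constructor
  · intro x hx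
    obtain ⟨p, q, hpq⟩ := h.g1 (e.symm x) (by rw [← map_smul, hx, map_zero])
    exact ⟨e p, e q, by rw [← map_smul, ← map_smul, ← map_add, ← hpq, e.apply_symm_apply]⟩
  · intro x1 x2 hx
    obtain ⟨y1, y2, s1, s2, h1, h2⟩ := h.g2 (e.symm x1) (e.symm x2)
      (by rw [← map_smul, ← map_smul, ← map_add, hx, map_zero])
    refine ⟨e y1, e y2, e s1, e s2, ?_, ?_⟩
    · rw [← map_smul, ← map_smul, ← map_smul, ← map_add, ← map_add, ← h1, e.apply_symm_apply]
    · rw [← map_smul, ← map_smul, ← map_smul, ← map_sub, ← map_sub, ← h2, e.apply_symm_apply]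
  · intro x1 x2 x3 x4 hx hy
    obtain ⟨y1, y2, s1, s2, h1, h2⟩ := h.g3 (e.symm x1) (e.symm x2) (e.symm x3) (e.symm x4)
      (by rw [← map_smul, ← map_smul, ← map_add, hx, map_smul])
      (by rw [← map_smul, ← map_smul, ← map_add, hy, map_smul])
    refine ⟨e y1, e y2, e s1, e s2, ?_, ?_⟩
    · rw [← map_smul, ← map_smul, ← map_smul, ← map_add, ← map_add, ← h1, e.apply_symm_apply]
    · rw [← map_smul, ← map_smul, ← map_smul, ← map_sub, ← map_sub, ← h2, e.apply_symm_apply]
  · intro x1 x2 x3 x4 hx hy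
    obtain ⟨y1, y2, s1, s2, h1, h2⟩ := h.g4 (e.symm x1) (e.symm x2) (e.symm x3) (e.symm x4)
      (by rw [← map_smul, ← map_smul, ← map_add, hx, map_smul])
      (by rw [← map_smul, ← map_smul, ← map_add, hy, map_smul])
    refine ⟨e y1, e y2, e s1, e s2, ?_, ?_⟩
    · rw [← map_smul, ← map_smul, ← map_smul, ← map_add, ← map_add, ← h1, e.apply_symm_apply]
    · rw [← map_smul, ← map_smul, ← map_smul, ← map_sub, ← map_sub, ← h2, e.apply_symm_apply]

/-- finitely supported function from a function -/
noncomputable def mkF (s : Finset ℕ) (p : ℕ → X) : ℕ →₀ X :=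
  Finsupp.onFinset s (fun n => if n ∈ s then p n else 0) (by
    intro n hn
    by_contra h
    exact hn (if_neg h))

theorem mkF_mem {s : Finset ℕ} {p : ℕ → X} {n : ℕ} (h : n ∈ s) : mkF s p n = p n := if_pos h
theorem mkF_not {s : Finset ℕ} {p : ℕ → X} {n : ℕ} (h : n ∉ s) : mkF s p n = 0 := if_neg h

theorem good_finsupp {a b c d z : R} (h : Good a b c d z X) : Good a b c d z (ℕ →₀ X) := by
  constructor
  · intro x hx
    have h1 : ∀ n, ∃ p q : X, x n = a • p + b • q := fun n =>
      h.g1 (x n) (by rw [← Finsupp.smul_apply, hx, Finsupp.zero_apply])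
    choose p q hpq using h1
    refine ⟨mkF x.support p, mkF x.support q, ?_⟩
    ext n
    rw [Finsupp.add_apply, Finsupp.smul_apply, Finsupp.smul_apply]
    by_cases hn : n ∈ x.support
    · rw [mkF_mem hn, mkF_mem hn, hpq]
    · rw [mkF_not hn, mkF_not hn, Finsupp.notMem_support_iff.1 hn]; simp
  · intro x1 x2 hx
    have h1 : ∀ n, ∃ y1 y2 s1 s2 : X, x1 n = z • y1 + d • s1 + b • s2 ∧
        x2 n = z • y2 - c • s1 - a • s2 := fun n =>
      h.g2 (x1 n) (x2 n) (by
        have := DFunLike.congr_fun hx n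
        simpa only [Finsupp.add_apply, Finsupp.smul_apply, Finsupp.zero_apply] using this)
    choose y1 y2 s1 s2 e1 e2 using h1
    set s := x1.support ∪ x2.support with hs
    refine ⟨mkF s y1, mkF s y2, mkF s s1, mkF s s2, ?_, ?_⟩
    · ext n
      simp only [Finsupp.add_apply, Finsupp.smul_apply]
      by_cases hn : n ∈ s
      · rw [mkF_mem hn, mkF_mem hn, mkF_mem hn, e1]
      · rw [mkF_not hn, mkF_not hn, mkF_not hn]
        rw [hs, Finset.mem_union, not_or] at hn
        rw [Finsupp.notMem_support_iff.1 hn.1]; simp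
    · ext n
      simp only [Finsupp.sub_apply, Finsupp.smul_apply]
      by_cases hn : n ∈ s
      · rw [mkF_mem hn, mkF_mem hn, mkF_mem hn, e2]
      · rw [mkF_not hn, mkF_not hn, mkF_not hn]
        rw [hs, Finset.mem_union, not_or] at hn
        rw [Finsupp.notMem_support_iff.1 hn.2]; simp
  · intro x1 x2 x3 x4 hx hy
    have h1 : ∀ n, ∃ s1 s2 y1 y2 : X, x1 n = a • s1 + b • s2 + z • y1 ∧
        x2 n = z • y2 - c • s1 - d • s2 := fun n =>
      h.g3 (x1 n) (x2 n) (x3 n) (x4 n) (by
        have := DFunLike.congr_fun hx n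
        simpa only [Finsupp.add_apply, Finsupp.smul_apply] using this) (by
        have := DFunLike.congr_fun hy n
        simpa only [Finsupp.add_apply, Finsupp.smul_apply] using this)
    choose s1 s2 y1 y2 e1 e2 using h1
    set s := x1.support ∪ x2.support with hs
    refine ⟨mkF s s1, mkF s s2, mkF s y1, mkF s y2, ?_, ?_⟩
    · ext n
      simp only [Finsupp.add_apply, Finsupp.smul_apply]
      by_cases hn : n ∈ s
      · rw [mkF_mem hn, mkF_mem hn, mkF_mem hn, e1]
      · rw [mkF_not hn, mkF_not hn, mkF_not hn]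
        rw [hs, Finset.mem_union, not_or] at hn
        rw [Finsupp.notMem_support_iff.1 hn.1]; simp
    · ext n
      simp only [Finsupp.sub_apply, Finsupp.smul_apply]
      by_cases hn : n ∈ s
      · rw [mkF_mem hn, mkF_mem hn, mkF_mem hn, e2]
      · rw [mkF_not hn, mkF_not hn, mkF_not hn]
        rw [hs, Finset.mem_union, not_or] at hn
        rw [Finsupp.notMem_support_iff.1 hn.2]; simp
  · intro x1 x2 x3 x4 hx hy
    have h1 : ∀ n, ∃ s1 s2 y1 y2 : X, x1 n = d • s1 + b • s2 + z • y1 ∧
        x2 n = z • y2 - c • s1 - a • s2 := fun n =>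
      h.g4 (x1 n) (x2 n) (x3 n) (x4 n) (by
        have := DFunLike.congr_fun hx n
        simpa only [Finsupp.add_apply, Finsupp.smul_apply] using this) (by
        have := DFunLike.congr_fun hy n
        simpa only [Finsupp.add_apply, Finsupp.smul_apply] using this)
    choose s1 s2 y1 y2 e1 e2 using h1
    set s := x1.support ∪ x2.support with hs
    refine ⟨mkF s s1, mkF s s2, mkF s y1, mkF s y2, ?_, ?_⟩
    · ext n
      simp only [Finsupp.add_apply, Finsupp.smul_apply]
      by_cases hn : n ∈ s
      · rw [mkF_mem hn, mkF_mem hn, mkF_mem hn, e1]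
      · rw [mkF_not hn, mkF_not hn, mkF_not hn]
        rw [hs, Finset.mem_union, not_or] at hn
        rw [Finsupp.notMem_support_iff.1 hn.1]; simp
    · ext n
      simp only [Finsupp.sub_apply, Finsupp.smul_apply]
      by_cases hn : n ∈ s
      · rw [mkF_mem hn, mkF_mem hn, mkF_mem hn, e2]
      · rw [mkF_not hn, mkF_not hn, mkF_not hn]
        rw [hs, Finset.mem_union, not_or] at hn
        rw [Finsupp.notMem_support_iff.1 hn.2]; simp

theorem good_polymod {a b c d z : R} (h : Good a b c d z X) :
    Good a b c d z (PolynomialModule R X) :=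
  good_equiv (PolynomialModule.coeffLinearEquiv (S := R) (R := R) (M := X)).symm (good_finsupp h)

theorem good_poly {a b c d z : R} (h : Good a b c d z R) :
    Good a b c d z (Polynomial R) :=
  good_equiv (PolynomialModule.equivPolynomial (R := R) (S := R)) (good_polymod h)

end fs

end Pool.Agent.T9h65.Grade
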