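import Mathlib
import Pool.Agent.T9h65.Dim.Chain2
import Pool.Agent.T9h65.Grade.FRes

/-! Vanishing of `Tor` along short exact sequences, for all flat resolutions at once. -/

set_option autoImplicit false

open TensorProduct LinearMap

namespace Pool.Agent.T9h65.Grade

open Pool.Agent.T9h65.Dim

section gen

variable {R : Type} [CommRing R] {A B C N : Type} [AddCommGroup A] [Module R A]
  [AddCommGroup B] [Module R B] [AddCommGroup C] [Module R C] [AddCommGroup N] [Module R N]

theorem tvan_mono {m n : ℕ} (h : TorVanish (R := R) m A N) (hmn : m ≤ n) :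
    TorVanish (R := R) n A N := by
  intro F _ _ _ D hD ε h0 hε i hi
  exact h F D hD ε h0 hε i (hmn.trans hi)

theorem tvan_flat [Module.Flat R A] : TorVanish (R := R) 0 A N := by
  intro F _ _ _ D hD ε h0 hε i _
  exact tv_flat D hD i

theorem tvan_shift {m : ℕ} (ι : A →ₗ[R] B) (π : B →ₗ[R] C) (hι : Function.Injective ι)
    (hπ : Function.Surjective π) (hex : Function.Exact ι π)
    (hA : TorVanish (R := R) m A N) (hB : TorVanish (R := R) (m + 1) B N) :
    TorVanish (R := R) (m + 1) C N := by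
  intro F _ _ _ D hD ε h0 hε i hi
  obtain ⟨j, rfl⟩ : ∃ j, i = j + 1 := ⟨i - 1, by omega⟩
  exact shift_succ D hD ι π hι hπ hex j (hA F D hD ε h0 hε j (by omega))
    (hB F D hD ε h0 hε (j + 1) hi)

theorem tvan_zero (ι : A →ₗ[R] B) (π : B →ₗ[R] C) (hι : Function.Injective ι)
    (hπ : Function.Surjective π) (hex : Function.Exact ι π)
    (hN : Function.Injective (rTensor N ι))
    (hA : TorVanish (R := R) 0 A N) (hB : TorVanish (R := R) 0 B N) :
    TorVanish (R := R) 0 C N := by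
  intro F _ _ _ D hD ε h0 hε i _
  cases i with
  | zero => exact shift_zero D hD ε h0 hε ι π hπ hex hN (hB F D hD ε h0 hε 0 le_rfl)
  | succ j =>
    exact shift_succ D hD ι π hι hπ hex j (hA F D hD ε h0 hε j (by omega))
      (hB F D hD ε h0 hε (j + 1) (by omega))

theorem tvan_ext {m : ℕ} (ι : A →ₗ[R] B) (π : B →ₗ[R] C) (hι : Function.Injective ι)
    (hπ : Function.Surjective π) (hex : Function.Exact ι π)
    (hA : TorVanish (R := R) m A N) (hC : TorVanish (R := R) m C N) :
    TorVanish (R := R) m B N := by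
  intro F _ _ _ D hD ε h0 hε i hi
  exact ext_closed D hD ι π hι hπ hex i (hA F D hD ε h0 hε i hi) (hC F D hD ε h0 hε i hi)

theorem tvan_unit : TorVanish (R := R) 0 PUnit N := by
  intro F _ _ _ D hD ε h0 hε i _
  intro y
  have : Subsingleton (PUnit ⊗[R] F (i + 1)) := inferInstance
  constructor
  · intro _
    exact ⟨0, Subsingleton.elim _ _⟩
  · intro _
    rw [Subsingleton.elim y 0, map_zero]

theorem tvan_equiv {m : ℕ} (e : A ≃ₗ[R] B) (hA : TorVanish (R := R) m A N) :
    TorVanish (R := R) m B N := by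
  refine tvan_ext (C := PUnit) e.toLinearMap 0 e.injective
    (fun y => ⟨0, Subsingleton.elim _ _⟩) ?_ hA (tvan_mono tvan_unit (Nat.zero_le _))
  intro y
  constructor
  · intro _
    exact ⟨e.symm y, e.apply_symm_apply y⟩
  · intro _
    rfl

/-- the short exact sequence `R/J → R/J → R/(J + (r))` -/
theorem tvan_mod (J : Ideal R) (r : R) (hr : ∀ x : R, r * x ∈ J → x ∈ J) {m : ℕ}
    (h : TorVanish (R := R) m (R ⧸ J) N) :
    TorVanish (R := R) (m + 1) (R ⧸ (J ⊔ Ideal.span {r})) N := by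
  refine tvan_shift (r • (LinearMap.id : (R ⧸ J) →ₗ[R] (R ⧸ J)))
    (Submodule.mapQ J (J ⊔ Ideal.span {r}) LinearMap.id (by
      intro x hx
      exact Ideal.mem_sup_left hx)) ?_ ?_ ?_ h (tvan_mono h (Nat.le_succ m))
  · rw [injective_iff_map_eq_zero]
    intro x hx
    obtain ⟨x, rfl⟩ := Ideal.Quotient.mk_surjective x
    have h1 : (Ideal.Quotient.mk J (r * x)) = 0 := hx
    exact Ideal.Quotient.eq_zero_iff_mem.2 (hr x (Ideal.Quotient.eq_zero_iff_mem.1 h1))
  · intro y
    obtain ⟨y, rfl⟩ := Ideal.Quotient.mk_surjective y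
    exact ⟨Ideal.Quotient.mk J y, rfl⟩
  · intro y
    obtain ⟨y, rfl⟩ := Ideal.Quotient.mk_surjective y
    constructor
    · intro hy
      have h1 : (Ideal.Quotient.mk (J ⊔ Ideal.span {r}) y) = 0 := hy
      obtain ⟨j, hj, t, ht, rfl⟩ := Submodule.mem_sup.1 (Ideal.Quotient.eq_zero_iff_mem.1 h1)
      obtain ⟨u, rfl⟩ := Ideal.mem_span_singleton.1 ht
      refine ⟨Ideal.Quotient.mk J u, ?_⟩
      show Ideal.Quotient.mk J (r * u) = Ideal.Quotient.mk J (j + r * u)
      rw [map_add, Ideal.Quotient.eq_zero_iff_mem.2 hj, zero_add]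
    · rintro ⟨x, hx⟩
      obtain ⟨x, rfl⟩ := Ideal.Quotient.mk_surjective x
      rw [← hx]
      show (Ideal.Quotient.mk (J ⊔ Ideal.span {r}) (r * x)) = 0
      exact Ideal.Quotient.eq_zero_iff_mem.2 (Ideal.mem_sup_right
        (Ideal.mul_mem_right _ _ (Ideal.mem_span_singleton_self r)))

end gen

section five

variable {R : Type} [CommRing R] {a b c d z : R} {N : Type} [AddCommGroup N] [Module R N]

theorem five (h1 : a * d = b * c) (h2 : z * a = 0) (h3 : z * b = 0) (hR : Good a b c d z R)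
    (hN : Good a b c d z N) : TorVanish (R := R) 0 (Rz z) N ∧ TorVanish (R := R) 0 (P0 a b) N := by
  have e0 : Function.Exact (P0 a b).subtype (P0 a b).mkQ := LinearMap.exact_subtype_mkQ _
  have main : ∀ (F : ℕ → Type) [∀ i, AddCommGroup (F i)] [∀ i, Module R (F i)]
      [∀ i, Module.Flat R (F i)] (D : ∀ i, F (i + 1) →ₗ[R] F i)
      (_ : ∀ i, Function.Exact (D (i + 1)) (D i)) (ε : F 0 →ₗ[R] N)
      (_ : Function.Exact (D 0) ε) (_ : Function.Surjective ε) (i : ℕ),
      TV D (Rz z) i ∧ TV D (R ⧸ P0 a b) i ∧ TV D (P0 a b) i ∧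
      TV D (P1 a b c d z) i ∧ TV D (P2 a b c d z) i := by
    intro F _ _ _ D hD ε h0 hε i
    induction i with
    | zero =>
      have t1 : TV D (Rz z) 0 := shift_zero D hD ε h0 hε (mulz (a := a) (b := b) h2 h3)
        (Ideal.span {z}).mkQ (Submodule.mkQ_surjective _) (exact_alpha h2 h3)
        (inj_alpha h2 h3 hN) (tv_flat D hD 0)
      have t11 : TV D (Rz z × Rz z) 0 := tv_prod D hD 0 t1 t1
      have t2 : TV D (R ⧸ P0 a b) 0 := shift_zero D hD ε h0 hε (P0 a b).subtype (P0 a b).mkQ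
        (Submodule.mkQ_surjective _) e0 (inj_beta h1 h2 h3 hN) (tv_flat D hD 0)
      have t3 : TV D (P0 a b) 0 := shift_zero D hD ε h0 hε (P1 a b c d z).subtype _
        (surj_pair _ _ _ _ (gen0 a b)) (exact_gamma h1 h2 h3 hR) (inj_gamma h1 hN) t11
      have t4 : TV D (P1 a b c d z) 0 := shift_zero D hD ε h0 hε (P2 a b c d z).subtype _
        (surj_pair _ _ _ _ (gen1 a b c d z)) (exact_delta h1 hR) (inj_delta h1 hN) t11
      have t5 : TV D (P2 a b c d z) 0 := shift_zero D hD ε h0 hε (P1 a b c d z).subtype _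
        (surj_pair _ _ _ _ (gen2 a b c d z)) (exact_eps h1 hR) (inj_gamma h1 hN) t11
      exact ⟨t1, t2, t3, t4, t5⟩
    | succ i ih =>
      obtain ⟨u1, u2, u3, u4, u5⟩ := ih
      have t1 : TV D (Rz z) (i + 1) := shift_succ D hD (mulz (a := a) (b := b) h2 h3)
        (Ideal.span {z}).mkQ (mulz_inj h2 h3 hR) (Submodule.mkQ_surjective _) (exact_alpha h2 h3)
        i u2 (tv_flat D hD _)
      have t11 : TV D (Rz z × Rz z) (i + 1) := tv_prod D hD _ t1 t1
      have t2 : TV D (R ⧸ P0 a b) (i + 1) := shift_succ D hD (P0 a b).subtype (P0 a b).mkQ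
        (Submodule.subtype_injective _) (Submodule.mkQ_surjective _) e0 i u3 (tv_flat D hD _)
      have t3 : TV D (P0 a b) (i + 1) := shift_succ D hD (P1 a b c d z).subtype _
        (Submodule.subtype_injective _)
        (surj_pair _ _ _ _ (gen0 a b)) (exact_gamma h1 h2 h3 hR) i u4 t11
      have t4 : TV D (P1 a b c d z) (i + 1) := shift_succ D hD (P2 a b c d z).subtype _
        (Submodule.subtype_injective _)
        (surj_pair _ _ _ _ (gen1 a b c d z)) (exact_delta h1 hR) i u5 t11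
      have t5 : TV D (P2 a b c d z) (i + 1) := shift_succ D hD (P1 a b c d z).subtype _
        (Submodule.subtype_injective _)
        (surj_pair _ _ _ _ (gen2 a b c d z)) (exact_eps h1 hR) i u4 t11
      exact ⟨t1, t2, t3, t4, t5⟩
  constructor
  · intro F _ _ _ D hD ε h0 hε i _
    exact (main F D hD ε h0 hε i).1
  · intro F _ _ _ D hD ε h0 hε i _
    exact (main F D hD ε h0 hε i).2.2.1

/-- `R/(a,b,z)` -/
theorem tvan_S (h2 : z * a = 0) (h3 : z * b = 0) (hz : ∀ x : R, z * x ∈ P0 a b → x ∈ P0 a b)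
    (hA : TorVanish (R := R) 0 (P0 a b) N) (hB : TorVanish (R := R) 0 (Rz z) N) :
    TorVanish (R := R) 1 (R ⧸ (Ideal.span {z} ⊔ P0 a b)) N := by
  have hkill : ∀ x ∈ P0 a b, z * x = 0 := by
    intro x hx
    obtain ⟨p, q, rfl⟩ := Ideal.mem_span_pair.1 hx
    linear_combination p * h2 + q * h3
  refine tvan_shift (m := 0) ((Ideal.span {z}).mkQ.comp (P0 a b).subtype)
    (Submodule.mapQ (Ideal.span {z}) (Ideal.span {z} ⊔ P0 a b) LinearMap.id (by
      intro x hx
      exact Ideal.mem_sup_left hx)) ?_ ?_ ?_ hA (tvan_mono hB (Nat.zero_le _))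
  · rw [injective_iff_map_eq_zero]
    rintro ⟨x, hx⟩ h
    have h1 : (Ideal.Quotient.mk (Ideal.span {z}) x) = 0 := h
    obtain ⟨y, rfl⟩ := Ideal.mem_span_singleton.1 (Ideal.Quotient.eq_zero_iff_mem.1 h1)
    exact Subtype.ext (hkill y (hz y hx))
  · intro y
    obtain ⟨y, rfl⟩ := Ideal.Quotient.mk_surjective y
    exact ⟨Ideal.Quotient.mk _ y, rfl⟩
  · intro y
    obtain ⟨y, rfl⟩ := Ideal.Quotient.mk_surjective y
    constructor
    · intro hy
      have h1 : (Ideal.Quotient.mk (Ideal.span {z} ⊔ P0 a b) y) = 0 := hy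
      obtain ⟨j, hj, t, ht, rfl⟩ := Submodule.mem_sup.1 (Ideal.Quotient.eq_zero_iff_mem.1 h1)
      refine ⟨⟨t, ht⟩, ?_⟩
      show Ideal.Quotient.mk (Ideal.span {z}) t = Ideal.Quotient.mk (Ideal.span {z}) (j + t)
      rw [map_add, Ideal.Quotient.eq_zero_iff_mem.2 hj, zero_add]
    · rintro ⟨⟨x, hx⟩, h⟩
      rw [← h]
      show (Ideal.Quotient.mk (Ideal.span {z} ⊔ P0 a b) x) = 0
      exact Ideal.Quotient.eq_zero_iff_mem.2 (Ideal.mem_sup_right hx)

/-- the ring `R/(zw)` -/
theorem tvan_A (w : R) (hw : ∀ x : R, w * x = 0 → x = 0) (hwN : ∀ n : N, w • n = 0 → n = 0)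
    (hB : TorVanish (R := R) 0 (Rz z) N) :
    TorVanish (R := R) 0 (R ⧸ Ideal.span {z * w}) N := by
  -- `R/w`
  have hw1 : TorVanish (R := R) 0 (R ⧸ Ideal.span {w}) N := by
    refine tvan_zero (w • (LinearMap.id : R →ₗ[R] R)) (Ideal.span {w}).mkQ ?_
      (Submodule.mkQ_surjective _) ?_ ?_ tvan_flat tvan_flat
    · rw [injective_iff_map_eq_zero]
      intro x hx
      exact hw x hx
    · intro y
      constructor
      · intro hy
        have h1 : (Ideal.Quotient.mk (Ideal.span {w}) y) = 0 := hy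
        obtain ⟨u, rfl⟩ := Ideal.mem_span_singleton.1 (Ideal.Quotient.eq_zero_iff_mem.1 h1)
        exact ⟨u, rfl⟩
      · rintro ⟨x, rfl⟩
        show (Ideal.Quotient.mk (Ideal.span {w}) (w * x)) = 0
        exact Ideal.Quotient.eq_zero_iff_mem.2
          (Ideal.mul_mem_right _ _ (Ideal.mem_span_singleton_self w))
    · rw [injective_iff_map_eq_zero]
      intro t ht
      obtain ⟨n, rfl⟩ := one_gen (R := R) (N := N) (P := R) 1 (fun p => ⟨p, by simp⟩) t
      have h1 := congrArg (TensorProduct.lid R N) ht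
      have h2 : w • n = 0 := by simpa using h1
      rw [hwN n h2, tmul_zero]
  refine tvan_ext (A := Rz z) (C := R ⧸ Ideal.span {w})
    (Submodule.mapQ (Ideal.span {z}) (Ideal.span {z * w}) (w • LinearMap.id) (by
      intro x hx
      obtain ⟨u, rfl⟩ := Ideal.mem_span_singleton.1 hx
      show w * (z * u) ∈ Ideal.span {z * w}
      exact Ideal.mem_span_singleton.2 ⟨u, by ring⟩))
    (Submodule.mapQ (Ideal.span {z * w}) (Ideal.span {w}) LinearMap.id (by
      intro x hx
      obtain ⟨u, rfl⟩ := Ideal.mem_span_singleton.1 hx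
      show z * w * u ∈ Ideal.span {w}
      exact Ideal.mem_span_singleton.2 ⟨z * u, by ring⟩)) ?_ ?_ ?_ hB hw1
  · rw [injective_iff_map_eq_zero]
    intro x hx
    obtain ⟨x, rfl⟩ := Ideal.Quotient.mk_surjective x
    have h1 : (Ideal.Quotient.mk (Ideal.span {z * w}) (w * x)) = 0 := hx
    obtain ⟨u, hu⟩ := Ideal.mem_span_singleton.1 (Ideal.Quotient.eq_zero_iff_mem.1 h1)
    have h2 : x - z * u = 0 := hw _ (by linear_combination hu)
    exact Ideal.Quotient.eq_zero_iff_mem.2 (Ideal.mem_span_singleton.2 ⟨u, by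
      linear_combination h2⟩)
  · intro y
    obtain ⟨y, rfl⟩ := Ideal.Quotient.mk_surjective y
    exact ⟨Ideal.Quotient.mk _ y, rfl⟩
  · intro y
    obtain ⟨y, rfl⟩ := Ideal.Quotient.mk_surjective y
    constructor
    · intro hy
      have h1 : (Ideal.Quotient.mk (Ideal.span {w}) y) = 0 := hy
      obtain ⟨u, rfl⟩ := Ideal.mem_span_singleton.1 (Ideal.Quotient.eq_zero_iff_mem.1 h1)
      exact ⟨Ideal.Quotient.mk _ u, rfl⟩
    · rintro ⟨x, hx⟩
      obtain ⟨x, rfl⟩ := Ideal.Quotient.mk_surjective x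
      rw [← hx]
      show (Ideal.Quotient.mk (Ideal.span {w}) (w * x)) = 0
      exact Ideal.Quotient.eq_zero_iff_mem.2
        (Ideal.mul_mem_right _ _ (Ideal.mem_span_singleton_self w))

end five

end Pool.Agent.T9h65.Grade
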