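import Mathlib
import Pool.Agent.T9h65.Grade.PolyGood
import Pool.Agent.T9h65.Grade.TVan

/-! The local ring `B` of `R₀[w]` at the origin and the localization of `N₀[w]`. -/

set_option autoImplicit false

open Polynomial

namespace Pool.Agent.T9h65.Grade

open Pool.Agent.T9h65.Dim

/-- classes of the variables -/
noncomputable def xi (i : Fin 5) : R0 := Ideal.Quotient.mk I0 (MvPolynomial.X i)

theorem xi0 : xi 0 = ra := rfl
theorem xi1 : xi 1 = rb := rfl
theorem xi2 : xi 2 = rc := rfl
theorem xi3 : xi 3 = rd := rfl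
theorem xi4 : xi 4 = rz := rfl

/-- setting the variables in `V` to zero -/
noncomputable def tau (V : Finset (Fin 5)) (h0 : (0 : Fin 5) ∈ V) (h1 : (1 : Fin 5) ∈ V) :
    R0 →+* Po :=
  toD (fun i => if i ∈ V then 0 else MvPolynomial.X i) (by simp [h0, h1]) (by simp [h0])
    (by simp [h1])

/-- ideal generated by the variables in `V` -/
noncomputable def JV (V : Finset (Fin 5)) : Ideal R0 := Ideal.span (xi '' (V : Set (Fin 5)))

theorem ker_tau (V : Finset (Fin 5)) (h0 : (0 : Fin 5) ∈ V) (h1 : (1 : Fin 5) ∈ V) :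
    RingHom.ker (tau V h0 h1) = JV V := by
  apply le_antisymm
  · have key : ∀ p : Po, (Ideal.Quotient.mk I0 p : R0) -
        Ideal.Quotient.mk I0 (tau V h0 h1 (Ideal.Quotient.mk I0 p)) ∈ JV V := by
      intro p
      induction p using MvPolynomial.induction_on with
      | C a =>
        have : tau V h0 h1 (Ideal.Quotient.mk I0 (MvPolynomial.C a)) = MvPolynomial.C a := by
          unfold tau
          rw [toD_mk, MvPolynomial.aeval_C]
          rfl
        rw [this, sub_self]
        exact (JV V).zero_mem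
      | add p q hp hq =>
        have := (JV V).add_mem hp hq
        rw [map_add, map_add, map_add]
        convert this using 1
        ring
      | mul_X p i hp =>
        have : tau V h0 h1 (Ideal.Quotient.mk I0 (p * MvPolynomial.X i)) =
            tau V h0 h1 (Ideal.Quotient.mk I0 p) * (if i ∈ V then 0 else MvPolynomial.X i) := by
          rw [map_mul, map_mul]
          congr 1
          unfold tau
          rw [toD_X]
        rw [this]
        by_cases hi : i ∈ V
        · rw [if_pos hi, mul_zero, map_zero, sub_zero, map_mul]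
          exact (JV V).mul_mem_left _ (Ideal.subset_span ⟨i, hi, rfl⟩)
        · rw [if_neg hi, map_mul, map_mul, ← sub_mul]
          exact (JV V).mul_mem_right _ hp
    intro r hr
    obtain ⟨p, rfl⟩ := Ideal.Quotient.mk_surjective r
    have h := key p
    rw [RingHom.mem_ker] at hr
    rwa [hr, map_zero, sub_zero] at h
  · rw [JV, Ideal.span_le]
    rintro _ ⟨i, hi, rfl⟩
    rw [SetLike.mem_coe, RingHom.mem_ker, xi, tau, toD_X]
    exact if_pos hi

theorem JV_prime (V : Finset (Fin 5)) (h0 : (0 : Fin 5) ∈ V) (h1 : (1 : Fin 5) ∈ V) :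
    (JV V).IsPrime := by
  rw [← ker_tau V h0 h1]
  exact RingHom.ker_isPrime _

theorem JV_notMem (V : Finset (Fin 5)) (h0 : (0 : Fin 5) ∈ V) (h1 : (1 : Fin 5) ∈ V) (i : Fin 5)
    (hi : i ∉ V) : xi i ∉ JV V := by
  rw [← ker_tau V h0 h1, RingHom.mem_ker, xi, tau, toD_X, if_neg hi]
  exact MvPolynomial.X_ne_zero i

theorem JV_le (V : Finset (Fin 5)) : JV V ≤ mm := by
  rw [JV, Ideal.span_le]
  rintro _ ⟨i, _, rfl⟩
  rw [SetLike.mem_coe, mm, RingHom.mem_ker, ev0, xi, toD_X]

/-- `R₀[w]` -/
abbrev B0 : Type := Polynomial R0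

/-- the origin -/
noncomputable def evB : B0 →+* ℚ := Polynomial.eval₂RingHom ev0 0

/-- its prime ideal -/
noncomputable def nn : Ideal B0 := RingHom.ker evB

instance nn_prime : nn.IsPrime := RingHom.ker_isPrime evB

theorem C_mem_nn {r : R0} (h : r ∈ mm) : (C r : B0) ∈ nn := by
  rw [nn, RingHom.mem_ker, evB, Polynomial.coe_eval₂RingHom, Polynomial.eval₂_C]
  exact h

theorem X_mem_nn : (X : B0) ∈ nn := by
  rw [nn, RingHom.mem_ker, evB, Polynomial.coe_eval₂RingHom, Polynomial.eval₂_X]

theorem map_le_nn {J : Ideal R0} (h : J ≤ mm) : J.map (C : R0 →+* B0) ≤ nn := by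
  rw [Ideal.map_le_iff_le_comap]
  intro r hr
  exact C_mem_nn (h hr)

/-- the local ring -/
abbrev B : Type := Localization.AtPrime nn

/-- the module -/
abbrev NB : Type := LocalizedModule nn.primeCompl (PolynomialModule R0 NN)

/-- classes in `B` -/
noncomputable def be (r : R0) : B := algebraMap B0 B (C r)

theorem be_mul (r s : R0) : be (r * s) = be r * be s := by
  unfold be
  rw [C_mul, map_mul]

/-- `w` -/
noncomputable def bw : B := algebraMap B0 B X

instance : IsNoetherianRing B :=
  IsLocalization.isNoetherianRing nn.primeCompl B inferInstance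

theorem goodB : Good (be ra) (be rb) (be rc) (be rd) (be rz) B :=
  good_change (good_loc nn.primeCompl (Algebra.linearMap B0 B)
    (good_change (A := B0) (good_poly goodR0)))

theorem goodNB : Good (be ra) (be rb) (be rc) (be rd) (be rz) NB :=
  good_change (good_loc nn.primeCompl (LocalizedModule.mkLinearMap nn.primeCompl _)
    (good_change (A := B0) (good_polymod goodN)))

theorem b_rel1 : be ra * be rd = be rb * be rc := by rw [← be_mul, ← be_mul, r_rel1]
theorem be_zero : be 0 = 0 := by unfold be; rw [C_0, map_zero]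
theorem b_rel2 : be rz * be ra = 0 := by rw [← be_mul, r_rel2, be_zero]
theorem b_rel3 : be rz * be rb = 0 := by rw [← be_mul, r_rel3, be_zero]

/-- ideals of `B` generated by variables -/
noncomputable def JB (V : Finset (Fin 5)) : Ideal B :=
  ((JV V).map (C : R0 →+* B0)).map (algebraMap B0 B)

theorem JB_eq (V : Finset (Fin 5)) :
    JB V = Ideal.span ((fun i => be (xi i)) '' (V : Set (Fin 5))) := by
  rw [JB, JV, Ideal.map_span, Ideal.map_span, Set.image_image, Set.image_image]
  rfl

theorem JVC_prime (V : Finset (Fin 5)) (h0 : (0 : Fin 5) ∈ V) (h1 : (1 : Fin 5) ∈ V) :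
    ((JV V).map (C : R0 →+* B0)).IsPrime := by
  have := JV_prime V h0 h1
  exact Ideal.isPrime_map_C_of_isPrime

theorem JB_prime (V : Finset (Fin 5)) (h0 : (0 : Fin 5) ∈ V) (h1 : (1 : Fin 5) ∈ V) :
    (JB V).IsPrime := by
  have := JVC_prime V h0 h1
  exact Ideal.isPrime_map_of_isLocalizationAtPrime nn (map_le_nn (JV_le V))

theorem JB_mem (V : Finset (Fin 5)) (h0 : (0 : Fin 5) ∈ V) (h1 : (1 : Fin 5) ∈ V) (f : B0) :
    algebraMap B0 B f ∈ JB V ↔ f ∈ (JV V).map (C : R0 →+* B0) := by
  have := JVC_prime V h0 h1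
  have h := Ideal.under_map_of_isLocalizationAtPrime (S := B) nn (map_le_nn (JV_le V))
  conv_rhs => rw [← h]
  rfl

theorem JB_notMem (V : Finset (Fin 5)) (h0 : (0 : Fin 5) ∈ V) (h1 : (1 : Fin 5) ∈ V) (i : Fin 5)
    (hi : i ∉ V) : be (xi i) ∉ JB V := by
  intro h
  rw [be, JB_mem V h0 h1, Ideal.mem_map_C_iff] at h
  have := h 0
  rw [coeff_C_zero] at this
  exact JV_notMem V h0 h1 i hi this

theorem JB_w (V : Finset (Fin 5)) (h0 : (0 : Fin 5) ∈ V) (h1 : (1 : Fin 5) ∈ V) :
    bw ∉ JB V := by
  intro h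
  rw [bw, JB_mem V h0 h1, Ideal.mem_map_C_iff] at h
  have := h 1
  rw [coeff_X_one] at this
  exact (JV_prime V h0 h1).ne_top ((Ideal.eq_top_iff_one _).2 this)

theorem JB_insert (V : Finset (Fin 5)) (i : Fin 5) :
    JB V ⊔ Ideal.span {be (xi i)} = JB (insert i V) := by
  rw [JB_eq, JB_eq, ← Ideal.span_union, Finset.coe_insert, Set.image_insert_eq, Set.union_comm,
    Set.singleton_union]

theorem nn_le : nn ≤ (JV Finset.univ).map (C : R0 →+* B0) ⊔ Ideal.span {X} := by
  intro f hf
  rw [← Polynomial.divX_mul_X_add f]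
  refine add_mem (Ideal.mem_sup_right (Ideal.mul_mem_left _ _ (Ideal.mem_span_singleton_self X)))
    (Ideal.mem_sup_left (Ideal.mem_map_of_mem _ ?_))
  have h1 : f.coeff 0 ∈ mm := by
    rw [nn, RingHom.mem_ker, evB, Polynomial.coe_eval₂RingHom] at hf
    rw [mm, RingHom.mem_ker, ← hf]
    conv_rhs => rw [← Polynomial.divX_mul_X_add f, eval₂_add, eval₂_mul, eval₂_X, mul_zero,
      zero_add, eval₂_C]
  refine (mm_le.trans ?_) h1
  rw [Ideal.span_le]
  rintro x (rfl | rfl | rfl | rfl | rfl)
  · exact Ideal.subset_span ⟨0, by simp, rfl⟩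
  · exact Ideal.subset_span ⟨1, by simp, rfl⟩
  · exact Ideal.subset_span ⟨2, by simp, rfl⟩
  · exact Ideal.subset_span ⟨3, by simp, rfl⟩
  · exact Ideal.subset_span ⟨4, by simp, rfl⟩

theorem maxB : IsLocalRing.maximalIdeal B = JB Finset.univ ⊔ Ideal.span {bw} := by
  apply le_antisymm
  · rw [← Localization.AtPrime.map_eq_maximalIdeal]
    refine (Ideal.map_mono nn_le).trans ?_
    rw [Ideal.map_sup, Ideal.map_span, Set.image_singleton]
    rfl
  · rw [← Localization.AtPrime.map_eq_maximalIdeal]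
    refine sup_le (Ideal.map_mono (map_le_nn (JV_le _))) ?_
    rw [Ideal.span_le, Set.singleton_subset_iff]
    exact Ideal.mem_map_of_mem _ X_mem_nn

end Pool.Agent.T9h65.Grade
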