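import Mathlib
import Pool.Agent.T9h65.Grade.RingB

/-! `NB` has a projective resolution of length at most `4` over `B`. -/

set_option autoImplicit false

open Polynomial

namespace Pool.Agent.T9h65.Grade

open Pool.Agent.T9h65.Dim

theorem inj_loc {R : Type} [CommRing R] (S : Submonoid R) {X X' : Type} [AddCommGroup X]
    [Module R X] [AddCommGroup X'] [Module R X'] (f : X →ₗ[R] X') [IsLocalizedModule S f] (r : R)
    (h : ∀ x : X, r • x = 0 → x = 0) (x : X') (hx : r • x = 0) : x = 0 := by
  obtain ⟨⟨m, s⟩, hm⟩ := IsLocalizedModule.surj S f x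
  simp only [Submonoid.smul_def] at hm
  have h1 : f (r • m) = 0 := by rw [map_smul, ← hm, smul_comm, hx, smul_zero]
  obtain ⟨u, hu⟩ := (IsLocalizedModule.eq_zero_iff S f).1 h1
  rw [Submonoid.smul_def, smul_comm] at hu
  have h2 : f m = 0 := (IsLocalizedModule.eq_zero_iff S f).2 ⟨u, h _ hu⟩
  apply scale S f s
  rw [hm, h2, smul_zero]

theorem bw_nzd (x : B) (hx : bw * x = 0) : x = 0 := by
  refine inj_loc nn.primeCompl (Algebra.linearMap B0 B) (X : B0) ?_ x ?_
  · intro y hy
    rw [smul_eq_mul] at hy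
    ext n
    have := congrArg (fun p => Polynomial.coeff p (n + 1)) hy
    simpa [coeff_X_mul] using this
  · rw [← algebraMap_smul B, smul_eq_mul]
    exact hx

theorem bw_NB (n : NB) (hn : bw • n = 0) : n = 0 := by
  refine inj_loc nn.primeCompl (LocalizedModule.mkLinearMap nn.primeCompl
    (PolynomialModule R0 NN)) (X : B0) ?_ n ?_
  · intro y hy
    ext1
    ext1 k
    have h1 := congrArg (fun p => (PolynomialModule.coeff p) (k + 1)) hy
    have h2 : (X : B0) = monomial 1 1 := rfl
    simp only [h2, PolynomialModule.monomial_smul_apply] at h1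
    simpa using h1
  · rw [← algebraMap_smul B]
    exact hn

instance finPM : Module.Finite B0 (PolynomialModule R0 NN) :=
  Module.Finite.equiv (PolynomialModule.polynomialTensorProductLEquivPolynomialModule R0 NN)

instance finNB : Module.Finite B NB :=
  Module.Finite.of_isLocalizedModule nn.primeCompl
    (LocalizedModule.mkLinearMap nn.primeCompl (PolynomialModule R0 NN))

theorem tz : TorVanish (R := B) 0 (Rz (be rz)) NB := (five b_rel1 b_rel2 b_rel3 goodB goodNB).1

theorem P0_eq : P0 (be ra) (be rb) = JB {0, 1} := by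
  rw [JB_eq]
  simp [Set.image_pair, xi0, xi1]

theorem tp : TorVanish (R := B) 0 (P0 (be ra) (be rb)) NB :=
  (five b_rel1 b_rel2 b_rel3 goodB goodNB).2

theorem res1 : TorVanish (R := B) 1 (B ⧸ JB {4, 0, 1}) NB := by
  have h := tvan_S b_rel2 b_rel3 (N := NB) (by
    rw [P0_eq]
    intro x hx
    exact ((JB_prime {0, 1} (by simp) (by simp)).mem_or_mem hx).resolve_left
      (JB_notMem {0, 1} (by simp) (by simp) 4 (by simp))) tp tz
  rw [P0_eq, sup_comm] at h
  rwa [← JB_insert {0, 1} 4]

theorem res2 : TorVanish (R := B) 2 (B ⧸ JB {2, 4, 0, 1}) NB := by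
  rw [← JB_insert {4, 0, 1} 2]
  refine tvan_mod _ _ ?_ res1
  intro x hx
  exact ((JB_prime {4, 0, 1} (by simp) (by simp)).mem_or_mem hx).resolve_left
      (JB_notMem {4, 0, 1} (by simp) (by simp) 2 (by simp))

theorem res3 : TorVanish (R := B) 3 (B ⧸ JB {3, 2, 4, 0, 1}) NB := by
  rw [← JB_insert {2, 4, 0, 1} 3]
  refine tvan_mod _ _ ?_ res2
  intro x hx
  exact ((JB_prime {2, 4, 0, 1} (by simp) (by simp)).mem_or_mem hx).resolve_left
      (JB_notMem {2, 4, 0, 1} (by simp) (by simp) 3 (by simp))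

theorem univ_eq : (Finset.univ : Finset (Fin 5)) = {3, 2, 4, 0, 1} := by decide

theorem res4 : TorVanish (R := B) 4 (B ⧸ IsLocalRing.maximalIdeal B) NB := by
  rw [maxB, univ_eq]
  refine tvan_mod _ _ ?_ res3
  intro x hx
  exact ((JB_prime {3, 2, 4, 0, 1} (by simp) (by simp)).mem_or_mem hx).resolve_left
      (JB_w {3, 2, 4, 0, 1} (by simp) (by simp))

theorem resF : TorVanish (R := B) 4 (IsLocalRing.ResidueField B) NB := res4

theorem FR_NB : FR B 4 NB := FR_of_tor 4 NB resF

end Pool.Agent.T9h65.Grade
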