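import Mathlib
import Pool.Agent.T9h65.Grade.ResB
import Pool.Agent.T9h65.Grade.Final

/-! Instantiation of the abstract counterexample at the concrete ring and module. -/

set_option autoImplicit false

open Polynomial IsLocalRing

namespace Pool.Agent.T9h65.Grade

open Pool.Agent.T9h65.Dim

theorem JB_le_span (V : Finset (Fin 5)) (J : Ideal B) (h : ∀ i ∈ V, be (xi i) ∈ J) :
    JB V ≤ J := by
  rw [JB_eq, Ideal.span_le]
  rintro _ ⟨i, hi, rfl⟩
  exact h i hi

theorem hmaxB : maximalIdeal B ≤ Ideal.span {be ra, be rb, be rc, be rd, be rz, bw} := by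
  rw [maxB]
  refine sup_le (JB_le_span _ _ ?_) ?_
  · intro i _
    apply Ideal.subset_span
    fin_cases i
    · exact Or.inl rfl
    · exact Or.inr (Or.inl rfl)
    · exact Or.inr (Or.inr (Or.inl rfl))
    · exact Or.inr (Or.inr (Or.inr (Or.inl rfl)))
    · exact Or.inr (Or.inr (Or.inr (Or.inr (Or.inl rfl))))
  · rw [Ideal.span_le, Set.singleton_subset_iff]
    exact Ideal.subset_span (Or.inr (Or.inr (Or.inr (Or.inr (Or.inr rfl)))))

theorem be_mem_JB (V : Finset (Fin 5)) (i : Fin 5) (hi : i ∈ V) : be (xi i) ∈ JB V := by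
  rw [JB_eq]
  exact Ideal.subset_span ⟨i, hi, rfl⟩

theorem z_mem_max : be rz ∈ maximalIdeal B := by
  rw [maxB]
  exact Ideal.mem_sup_left (be_mem_JB _ 4 (Finset.mem_univ _))

theorem w_mem_max : bw ∈ maximalIdeal B := by
  rw [maxB]
  exact Ideal.mem_sup_right (Ideal.mem_span_singleton_self _)

theorem nil_locB (r : R0) (h : ∀ n : NN, r • r • r • n = 0) (n : NB) :
    (be r) ^ 3 • n = 0 := by
  have h0 : (be r) ^ 3 = algebraMap B0 B ((C r : B0) ^ 3) := by
    rw [map_pow]; rfl
  rw [h0, algebraMap_smul]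
  obtain ⟨⟨m, s⟩, hm⟩ := IsLocalizedModule.surj nn.primeCompl
    (LocalizedModule.mkLinearMap nn.primeCompl (PolynomialModule R0 NN)) n
  apply scale nn.primeCompl
    (LocalizedModule.mkLinearMap nn.primeCompl (PolynomialModule R0 NN)) s
  simp only [Submonoid.smul_def] at hm
  have h1 : ((C r : B0) ^ 3) • m = 0 := by
    rw [← C_pow, ← Polynomial.algebraMap_eq, algebraMap_smul]
    ext1
    ext1 k
    have h2 : r ^ 3 • (PolynomialModule.coeff m) k = 0 := by
      rw [pow_succ, pow_two, mul_smul, mul_smul]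
      exact h _
    exact h2
  rw [smul_comm, hm, ← map_smul, smul_zero, h1, map_zero]

/-- restriction to the `z`-axis -/
noncomputable def evq : B0 →+* ℚ[X] := Polynomial.eval₂RingHom hz 0

theorem evq_eq (f : B0) : evq f = hz (f.coeff 0) := by
  rw [evq, Polynomial.coe_eval₂RingHom]
  conv_lhs => rw [← Polynomial.divX_mul_X_add f, eval₂_add, eval₂_mul, eval₂_X, mul_zero,
      zero_add, eval₂_C]

/-- its kernel -/
noncomputable def qq : Ideal B0 := RingHom.ker evq

instance qq_prime : qq.IsPrime := RingHom.ker_isPrime evq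

theorem qq_le_nn : qq ≤ nn := by
  intro f hf
  rw [qq, RingHom.mem_ker, evq_eq] at hf
  have h1 : f.coeff 0 ∈ mm := kz hf
  rw [nn, RingHom.mem_ker, evB, Polynomial.coe_eval₂RingHom,
    ← Polynomial.divX_mul_X_add f, eval₂_add, eval₂_mul, eval₂_X, mul_zero,
      zero_add, eval₂_C]
  exact h1

theorem ker_hz_le : RingHom.ker hz ≤ JV {0, 1, 2, 3} := by
  rw [← ker_tau {0, 1, 2, 3} (by simp) (by simp)]
  refine toD_ker_le wz _ _ _ _ _ _ _ (Polynomial.aeval (MvPolynomial.X 4 : Po)) ?_
  intro i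
  fin_cases i <;> simp [wz]

theorem qq_le : qq ≤ (JV {0, 1, 2, 3}).map (C : R0 →+* B0) ⊔ Ideal.span {X} := by
  intro f hf
  rw [← Polynomial.divX_mul_X_add f]
  refine add_mem (Ideal.mem_sup_right (Ideal.mul_mem_left _ _ (Ideal.mem_span_singleton_self X)))
    (Ideal.mem_sup_left (Ideal.mem_map_of_mem _ ?_))
  rw [qq, RingHom.mem_ker, evq_eq] at hf
  exact ker_hz_le hf

/-- the prime of the `z`-axis -/
noncomputable def qB : Ideal B := qq.map (algebraMap B0 B)

instance qB_prime : qB.IsPrime := Ideal.isPrime_map_of_isLocalizationAtPrime nn qq_le_nn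

theorem qB_mem (f : B0) : algebraMap B0 B f ∈ qB ↔ f ∈ qq := by
  have h := Ideal.under_map_of_isLocalizationAtPrime (S := B) nn qq_le_nn
  conv_rhs => rw [← h]
  rfl

theorem qB_le : qB ≤ Ideal.span {be ra, be rb, be rc, be rd, bw} := by
  refine (Ideal.map_mono qq_le).trans ?_
  rw [Ideal.map_sup, Ideal.map_span, Set.image_singleton]
  refine sup_le (JB_le_span {0, 1, 2, 3} _ ?_) ?_
  · intro i hi
    apply Ideal.subset_span
    fin_cases i
    · exact Or.inl rfl
    · exact Or.inr (Or.inl rfl)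
    · exact Or.inr (Or.inr (Or.inl rfl))
    · exact Or.inr (Or.inr (Or.inr (Or.inl rfl)))
    · simp at hi
  · rw [Ideal.span_le, Set.singleton_subset_iff]
    exact Ideal.subset_span (Or.inr (Or.inr (Or.inr (Or.inr rfl))))

theorem qB_c : be rc ∈ qB := by
  rw [be, qB_mem, qq, RingHom.mem_ker, evq_eq, coeff_C_zero, hz, toD_X]
  simp [wz]

theorem qB_d : be rd ∈ qB := by
  rw [be, qB_mem, qq, RingHom.mem_ker, evq_eq, coeff_C_zero, hz, toD_X]
  simp [wz]

theorem qB_w : bw ∈ qB := by
  rw [bw, qB_mem, qq, RingHom.mem_ker, evq_eq, coeff_X_zero, map_zero]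

theorem qB_z : be rz ∉ qB := by
  rw [be, qB_mem, qq, RingHom.mem_ker, evq_eq, coeff_C_zero, hz, toD_X]
  simp [wz]

/-- coordinate of a polynomial with coefficients in `N` -/
theorem theta_smul (f : B0) (n : PolynomialModule R0 NN) :
    ((PolynomialModule.coeff (f • n)) 0).1 = evq f * ((PolynomialModule.coeff n) 0).1 := by
  rw [evq_eq, ← fst_smul]
  congr 1
  simp [PolynomialModule.smul_apply]

theorem clear_den {R A N N' : Type} [CommRing R] [CommRing A] [Algebra R A] [AddCommGroup N]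
    [Module R N] [AddCommGroup N'] [Module R N'] [Module A N'] [IsScalarTower R A N']
    (S : Submonoid R) [IsLocalization S A] (L : N →ₗ[R] N') [IsLocalizedModule S L]
    (f : R) (s : S) (g : R) (n : N) (n' : N')
    (h : IsLocalization.mk' A f s • L n = algebraMap R A g • n') :
    ∃ (u : S) (m' : N), ((u : R) * f) • n = g • m' := by
  obtain ⟨⟨m', t⟩, hm'⟩ := IsLocalizedModule.surj S L n'
  simp only [Submonoid.smul_def] at hm'
  have h1 : f • (L n) = (s : R) • (g • n') := by
    rw [← algebraMap_smul A f (L n), ← IsLocalization.mk'_spec' A f s, mul_smul, h,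
      algebraMap_smul, algebraMap_smul]
  have h3 : L (((t : R) * f) • n) = L ((g * (s : R)) • m') := by
    rw [map_smul, map_smul, ← hm', mul_smul, h1, smul_smul, smul_smul, smul_smul]
    congr 1
    ring
  obtain ⟨u, hu⟩ := (IsLocalizedModule.eq_iff_exists S L).1 h3
  rw [Submonoid.smul_def, Submonoid.smul_def, smul_smul, smul_smul] at hu
  refine ⟨u * t, ((u : R) * s) • m', ?_⟩
  rw [Submonoid.coe_mul, mul_assoc, hu, smul_smul]
  congr 1
  ring

theorem clear_B (f : B0) (s : nn.primeCompl) (g : B0) (n : PolynomialModule R0 NN) (n' : NB)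
    (h : IsLocalization.mk' B f s • (LocalizedModule.mkLinearMap nn.primeCompl
      (PolynomialModule R0 NN) n) = algebraMap B0 B g • n') :
    ∃ (u : nn.primeCompl) (m' : PolynomialModule R0 NN), ((u : B0) * f) • n = g • m' :=
  clear_den (R := B0) (A := B) (N := PolynomialModule R0 NN) (N' := NB) nn.primeCompl
    (LocalizedModule.mkLinearMap nn.primeCompl (PolynomialModule R0 NN)) f s g n n' h

theorem hqN (r : B) (h : ∀ n : NB, ∃ n' : NB, r • n = (be rz * bw) • n') : r ∈ qB := by
  obtain ⟨f, s, rfl⟩ := IsLocalization.exists_mk'_eq nn.primeCompl r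
  obtain ⟨n', hn'⟩ := h (LocalizedModule.mkLinearMap nn.primeCompl (PolynomialModule R0 NN)
    (PolynomialModule.single R0 0 m2))
  have hzw : be rz * bw = algebraMap B0 B ((C rz : B0) * X) := by
    rw [map_mul]; rfl
  rw [hzw] at hn'
  obtain ⟨u, m', hu⟩ := clear_B f s _ _ _ hn'
  have h4 := congrArg (fun n => ((PolynomialModule.coeff n) 0).1) hu
  simp only [theta_smul] at h4
  have hX : evq X = 0 := by rw [evq_eq, coeff_X_zero, map_zero]
  have h5 : evq (C rz * X) = 0 := by
    rw [map_mul, hX, mul_zero]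
  have h6 : ((PolynomialModule.coeff (PolynomialModule.single R0 0 m2)) 0).1 = 1 := by
    rw [PolynomialModule.coeff_single, Finsupp.single_eq_same]
  rw [h5, h6, zero_mul, mul_one, map_mul] at h4
  have hu0 : evq (u : B0) ≠ 0 := fun h => u.2 (qq_le_nn h)
  have h7 : evq f = 0 := (mul_eq_zero.1 h4).resolve_left hu0
  refine (IsLocalization.mk'_mem_map_algebraMap_iff nn.primeCompl B _ f s).2
    ⟨1, Submonoid.one_mem _, ?_⟩
  rw [one_mul]
  exact h7

/-- primes of `B` from primes of `B₀` -/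
noncomputable def PB (p : Ideal B0) [hp : p.IsPrime] (h : p ≤ nn) : PrimeSpectrum B :=
  ⟨p.map (algebraMap B0 B), Ideal.isPrime_map_of_isLocalizationAtPrime nn h⟩

theorem PB_under (p : Ideal B0) [hp : p.IsPrime] (h : p ≤ nn) :
    (PB p h).asIdeal.under B0 = p :=
  Ideal.under_map_of_isLocalizationAtPrime nn h

theorem PB_lt {p q : Ideal B0} [p.IsPrime] [q.IsPrime] (hp : p ≤ nn) (hq : q ≤ nn) (h : p < q) :
    PB p hp < PB q hq := by
  refine lt_of_le_of_ne (Ideal.map_mono h.le) ?_
  intro e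
  have h1 := PB_under p hp
  rw [e, PB_under q hq] at h1
  exact h.ne h1.symm

theorem mapC_lt {p q : Ideal R0} (h : p < q) :
    p.map (C : R0 →+* B0) < q.map (C : R0 →+* B0) := by
  refine lt_of_le_of_ne (Ideal.map_mono h.le) ?_
  intro e
  apply h.ne
  ext r
  have h1 : (C r : B0) ∈ p.map (C : R0 →+* B0) ↔ (C r : B0) ∈ q.map (C : R0 →+* B0) := by rw [e]
  have key : ∀ J : Ideal R0, (C r : B0) ∈ J.map (C : R0 →+* B0) ↔ r ∈ J := by
    intro J
    rw [Ideal.mem_map_C_iff]
    constructor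
    · intro h
      have := h 0
      rwa [coeff_C_zero] at this
    · intro h n
      by_cases hn : n = 0
      · rw [hn, coeff_C_zero]; exact h
      · rw [coeff_C_of_ne_zero hn]; exact J.zero_mem
  rwa [key, key] at h1

theorem mm_lt_nn : mm.map (C : R0 →+* B0) < nn := by
  refine lt_of_le_of_ne (map_le_nn le_rfl) ?_
  intro e
  have h1 : (X : B0) ∈ mm.map (C : R0 →+* B0) := by rw [e]; exact X_mem_nn
  rw [Ideal.mem_map_C_iff] at h1
  have := h1 1
  rw [coeff_X_one] at this
  exact (inferInstance : mm.IsPrime).ne_top ((Ideal.eq_top_iff_one _).2 this)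

theorem mem_suppB (p : Ideal R0) [(p.map (C : R0 →+* B0)).IsPrime]
    (h : p.map (C : R0 →+* B0) ≤ nn) (hz : rz ∈ p) :
    PB (p.map (C : R0 →+* B0)) h ∈ Module.support B (B ⧸ Ideal.span {be rz * bw}) := by
  rw [Module.mem_support_iff_of_finite, Ideal.annihilator_quotient, Ideal.span_le,
    Set.singleton_subset_iff]
  exact Ideal.mul_mem_right _ _ (Ideal.mem_map_of_mem _ (Ideal.mem_map_of_mem _ hz))

theorem hdimB : 4 ≤ ringKrullDim (QA (be rz * bw)) := by
  have z0 := z_mem0
  have z1 := k01 z0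
  have z2 := k12 z1
  have z3 := k23 z2
  have i0 : ((RingHom.ker h0).map (C : R0 →+* B0)).IsPrime := Ideal.isPrime_map_C_of_isPrime
  have i1 : ((RingHom.ker h1).map (C : R0 →+* B0)).IsPrime := Ideal.isPrime_map_C_of_isPrime
  have i2 : ((RingHom.ker h2).map (C : R0 →+* B0)).IsPrime := Ideal.isPrime_map_C_of_isPrime
  have i3 : (mm.map (C : R0 →+* B0)).IsPrime := Ideal.isPrime_map_C_of_isPrime
  have j0 := map_le_nn (k01.trans (k12.trans k23))
  have j1 := map_le_nn (k12.trans k23)
  have j2 := map_le_nn k23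
  have j3 : mm.map (C : R0 →+* B0) ≤ nn := map_le_nn le_rfl
  have key : 4 ≤ Module.supportDim B (B ⧸ Ideal.span {be rz * bw}) := by
    let c : Fin 5 → Module.support B (B ⧸ Ideal.span {be rz * bw}) :=
      ![⟨PB _ j0, mem_suppB _ j0 z0⟩, ⟨PB _ j1, mem_suppB _ j1 z1⟩,
        ⟨PB _ j2, mem_suppB _ j2 z2⟩, ⟨PB _ j3, mem_suppB _ j3 z3⟩,
        ⟨PB nn le_rfl, Module.mem_support_mono (PB_lt j3 le_rfl mm_lt_nn).le
          (mem_suppB _ j3 z3)⟩]
    have hc : StrictMono c := by
      rw [Fin.strictMono_iff_lt_succ]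
      intro i
      fin_cases i
      · exact PB_lt j0 j1 (mapC_lt l01)
      · exact PB_lt j1 j2 (mapC_lt l12)
      · exact PB_lt j2 j3 (mapC_lt l23)
      · exact PB_lt j3 le_rfl mm_lt_nn
    exact Order.le_krullDim_iff.2 ⟨LTSeries.mk 4 c hc, rfl⟩
  rwa [Module.supportDim_quotient_eq_ringKrullDim] at key

end Pool.Agent.T9h65.Grade
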